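import Pool.Agent.ATP.Stmts
import Pool.Agent.Helper65_AT2.TYA
import Pool.Agent.Helper62_AT3.LCJ

/-!
# Squad ATP, row PCJ: conjugation of pairs
-/

open scoped BigOperators

noncomputable section

namespace Pool.Agent.PP.TP.H27

open Pool.Agent.Helper51_AWC Pool.Agent.Helper79_WRA Pool.Agent.PP Pool.Agent.PP.KF
open Pool.Agent.PP.K9 Pool.Agent.PP.K9.H97 Pool.Agent.PP.H75 Pool.Agent.PP.T3 Pool.Agent.PP.T2
open Pool.Agent.PP.TB

attribute [local instance] Ideal.Quotient.field

/-- the stabiliser of a function -/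
def stb {G F : Type} [Group G] (b : G → F) : Subgroup G where
  carrier := {n | ∀ t, b (n * t * n⁻¹) = b t}
  mul_mem' := by
    intro x y hx hy t
    have e : x * y * t * (x * y)⁻¹ = x * (y * t * y⁻¹) * x⁻¹ := by group
    rw [e, hx, hy]
  one_mem' := by
    intro t
    simp
  inv_mem' := by
    intro x hx t
    have h := hx (x⁻¹ * t * x⁻¹⁻¹)
    have e : x * (x⁻¹ * t * x⁻¹⁻¹) * x⁻¹ = t := by group
    rw [e] at h
    exact h.symm

/-- PCJ -/
theorem pcj : PcjStmt := by
  intro ℓ F _ G _ _ g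
  have hpq : ∀ (Q : Subgroup G) (b : G → F), Pq ℓ Q b → Pq ℓ (conjS g Q) (cj g b) := by
    intro Q b h
    refine ⟨?_, ?_⟩
    · exact h.pg.map _
    · exact T3.H62.bx_cj (fun x => T3.H62.mem_cent_conjS x) h.blk
  have hnl : ∀ (Q P : Subgroup G) (b c : G → F), Nl Q b P c →
      Nl (conjS g Q) (cj g b) (conjS g P) (cj g c) := by
    intro Q P b c h
    refine ⟨?_, ?_, ?_, ?_⟩
    · exact Subgroup.map_mono h.le
    · intro x hx
      rw [Subgroup.mem_normalizer_iff]
      intro y
      rw [T3.H62.mem_conjS, T3.H62.mem_conjS]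
      have h1 := Subgroup.mem_normalizer_iff.1 (h.nor (T3.H62.mem_conjS.1 hx)) (g⁻¹ * y * g)
      have e : g⁻¹ * x * g * (g⁻¹ * y * g) * (g⁻¹ * x * g)⁻¹ = g⁻¹ * (x * y * x⁻¹) * g := by group
      rw [e] at h1
      exact h1
    · intro x hx
      have h1 := (cj_eq_iff _ _).1 (h.inv _ (T3.H62.mem_conjS.1 hx))
      rw [cj_eq_iff]
      intro t
      change b (g⁻¹ * (x * t * x⁻¹) * g) = b (g⁻¹ * t * g)
      rw [← h1 (g⁻¹ * t * g)]
      congr 1
      group
    · rw [T2.H65.cj_br, ← cj_mulF, h.und]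
  refine ⟨hpq, hnl, ?_, ?_⟩
  · intro Q P b c h
    induction h with
    | refl => exact Le.refl
    | step R a P c _ hR hP hn ih => exact Le.step _ _ _ _ ih (hpq _ _ hR) (hpq _ _ hP) (hnl _ _ _ _ hn)
  · intro Q b h hg
    rw [cj_eq_iff]
    have h1 : Q ⊔ Subgroup.centralizer (Q : Set G) ≤ stb b := by
      refine sup_le ?_ ?_
      · intro q hq t
        by_cases ht : t ∈ Subgroup.centralizer (Q : Set G)
        · congr 1
          have h2 := Subgroup.mem_centralizer_iff.1 ht q hq
          rw [h2, mul_inv_cancel_right]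
        · rw [h.blk.supp t ht, h.blk.supp]
          intro h2
          apply ht
          have h3 := Subgroup.mem_centralizer_iff.1 h2 q hq
          have h4 : t = q⁻¹ * (q * t * q⁻¹) * q := by group
          have h5 : q * t * q⁻¹ = t := by
            have h6 : q⁻¹ * (q * (q * t * q⁻¹)) * q = q⁻¹ * (q * t * q⁻¹ * q) * q := by rw [h3]
            have e1 : q⁻¹ * (q * (q * t * q⁻¹)) * q = q * t := by group
            have e2 : q⁻¹ * (q * t * q⁻¹ * q) * q = t * q := by group
            rw [e1, e2] at h6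
            rw [h6, mul_inv_cancel_right]
          rw [← h5]
          exact h2
      · intro x hx
        exact (cj_eq_iff _ _).1 (h.blk.ix.inv hx)
    exact h1 hg

end Pool.Agent.PP.TP.H27
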